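import Pool.Agent.Lib.MP_b5021c_nt.B.H36.Evr

/-!
# MP_b5021c_nt, board b5, row SHA: the involution `#`
-/

namespace Pool.Agent.B5.H09

open scoped LaurentPolynomial
open Pool.Agent.B5 Pool.Agent.B5.H36

section

variable {O : Type} [CommRing O] [Coef O]

theorem conj_conj (c : O) : (Coef.conj : O ≃+* O) ((Coef.conj : O ≃+* O) c) = c := by
  apply emb_inj
  rw [Coef.emb_conj, Coef.emb_conj, Complex.conj_conj]

theorem rsh_rsh (p : RO O) : rsh (rsh p) = p := by
  induction p using AddMonoidAlgebra.induction_linear with
  | zero => rw [map_zero, map_zero]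
  | add f g hf hg => rw [map_add, map_add, hf, hg]
  | single n c => rw [rsh_single, rsh_single, neg_neg, conj_conj]

variable {L : Type} [AddCommGroup L]

theorem sharp_single (a : L) (q : RO O) :
    sharp (AddMonoidAlgebra.single a q : AO O L) = AddMonoidAlgebra.single (-a) (rsh q) := by
  simp [sharp, AddMonoidAlgebra.mapDomainRingHom_apply]

theorem sharp_sharp (G : AO O L) : sharp (sharp G) = G := by
  induction G using AddMonoidAlgebra.induction_linear with
  | zero => rw [map_zero, map_zero]
  | add f g hf hg => rw [map_add, map_add, hf, hg]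
  | single a q => rw [sharp_single, sharp_single, neg_neg, rsh_rsh]

theorem ev_single (z : Circle) (u : AddChar L Circle) (a : L) (q : RO O) :
    ev z u (AddMonoidAlgebra.single a q) = evR z q * (u a : ℂ) := by
  have h1 : spec z (AddMonoidAlgebra.single a q : AO O L) =
      AddMonoidAlgebra.single a (evR z q) := by
    simp [spec]
  unfold ev
  rw [RingHom.comp_apply, h1, evC_apply, AddMonoidAlgebra.coeff_single, Finsupp.sum_single_index]
  rw [zero_mul]

theorem ev_sharp (z : Circle) (u : AddChar L Circle) (G : AO O L) :
    ev z u (sharp G) = (starRingEnd ℂ) (ev z u G) := by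
  induction G using AddMonoidAlgebra.induction_linear with
  | zero => rw [map_zero, map_zero, map_zero]
  | add f g hf hg => rw [map_add, map_add, map_add, map_add, hf, hg]
  | single a q =>
    rw [sharp_single, ev_single, ev_single, map_mul, evR_rsh, AddChar.map_neg_eq_inv,
      Circle.coe_inv_eq_conj]

/-- the involution as an automorphism -/
noncomputable def sharpE : AO O L ≃* AO O L where
  toFun G := sharp G
  invFun G := sharp G
  left_inv G := sharp_sharp G
  right_inv G := sharp_sharp G
  map_mul' a b := map_mul sharp a b

theorem irr_sharp {G : AO O L} (h : Irreducible G) : Irreducible (sharp G) :=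
  (MulEquiv.irreducible_iff (sharpE (O := O) (L := L)) (x := G)).mpr h

theorem prim_sharp {G : AO O L} (h : Prim G) : Prim (sharp G) := by
  intro c hc
  have h1 : sharp (cst c : AO O L) = cst (rsh c) := by
    unfold cst
    rw [sharp_single, neg_zero]
  have h2 : cst (rsh c) ∣ G := by
    have := map_dvd (sharp (O := O) (L := L)) hc
    rwa [h1, sharp_sharp] at this
  have h3 := (h _ h2).map (rsh (O := O))
  rwa [rsh_rsh] at h3

end

theorem sha : SharpS := by
  intro O _ _ _ _ L _ _ _ G
  exact ⟨fun z u => ev_sharp z u G, sharp_sharp G, irr_sharp, prim_sharp⟩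

end Pool.Agent.B5.H09
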