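import Pool.Agent.Lib.MP_b5021c_nt.IfaceE2
import Pool.Agent.Lib.MP_b5021c_nt.B.H14.Pri
import Pool.Agent.Lib.MP_b5021c_nt.B.H49.Drb

/-!
# Board b5, stage 3, row E2_TPM: the masses of a terminal pair
-/

namespace Pool.Agent.B5.H09

open scoped LaurentPolynomial Topology
open Polynomial MeasureTheory Pool.Agent.B5

section

variable {O : Type} [CommRing O] [Coef O] {L : Type} [AddCommGroup L]

theorem tpm_ev_single (z : Circle) (u : AddChar L Circle) (a : L) (c : RO O) :
    ev z u (AddMonoidAlgebra.single a c) = evR z c * (u a : ℂ) := H71.ev_single z u a c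

theorem tpm_ev_cst_mul (z : Circle) (u : AddChar L Circle) (c : RO O) (G : AO O L) :
    ev z u (cst c * G) = evR z c * ev z u G := by
  rw [map_mul, cst, H71.ev_single, AddChar.map_zero_eq_one]
  simp

variable [IsDomain O] [IsPrincipalIdealRing O]

/-- A closed property which holds outside the zeros of a non-zero element. -/
theorem tpm_dense (zf : ZfinS) (p : RO O) (hp : p ≠ 0) (Q : Circle → Prop)
    (hQ : IsClosed {z | Q z}) (h : ∀ z, evR z p ≠ 0 → Q z) : ∀ z, Q z := by
  have h1 := H49.dense_compl_finite _ (zf O p hp)
  have h2 : {z : Circle | evR z p = 0}ᶜ ⊆ {z | Q z} := fun z hz => h z hz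
  have h3 := (h1.mono h2).closure_eq
  rw [hQ.closure_eq] at h3
  intro z
  have : z ∈ {z | Q z} := by rw [h3]; trivial
  exact this

theorem tpm_cont_ev (er : EvRS) (u : AddChar L Circle) (G : AO O L) :
    Continuous fun z : Circle => ev z u G := by
  induction G using AddMonoidAlgebra.induction_linear with
  | zero => simp only [map_zero]; exact continuous_const
  | add f g hf hg => simp only [map_add]; exact hf.add hg
  | single a q =>
    simp only [H71.ev_single]
    exact ((er O).2.2.2 q).mul continuous_const

/-- `z ↦ evL z p` along the circle is continuous. -/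
theorem tpm_cont_evL (er : EvRS) (p : RO O) :
    Continuous fun t : ℝ => evL (circleMap 0 1 t) p := by
  have h1 : (fun t : ℝ => evL (circleMap 0 1 t) p) = fun t : ℝ => evR (Circle.exp t) p := by
    funext t
    rw [← (er O).1, Circle.coe_exp, circleMap_zero, Complex.ofReal_one, one_mul]
  rw [h1]
  exact ((er O).2.2.2 p).comp Circle.exp.continuous

end

/-- Row E2_TPM. -/
theorem e2_tpm (h1 : Tp1S) (h2 : Tp2S) (h3 : Tp3S) (hI : TpiS) (hR : TprS) (hD : DvcS)
    (nn : NnwS) (er : EvRS) (zf : ZfinS) (hSh : SharpS) : TpmS := by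
  classical
  intro O _ _ _ _ L _ _ _ r lam B c n b f e hT hc hint
  obtain ⟨q, hq, hq0⟩ := h1 O L r lam B c n b f e hT
  have hrec := h2 O L r lam B c n b f e q hT hq
  have hpos := h3 O L r lam B c n b f e q hT hq
  have hsum := hI O L r lam B c n b f e q hT hq hrec
  have hrk := hR O L r lam B c n b f e q hT hq hrec
  have hc0 := hT.c0
  have hrc0 : rsh c ≠ 0 := by
    intro h
    obtain ⟨z, hz⟩ : ∃ z : Circle, evR z c ≠ 0 := by
      by_contra hcon
      push Not at hcon
      have h5 := zf O c hc0
      have h6 : {z : Circle | evR z c = 0} = Set.univ := Set.eq_univ_of_forall hcon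
      rw [h6] at h5
      exact (H49.dense_compl_finite _ h5).nonempty.elim fun x hx => hx (Set.mem_univ x)
    have h7 := (er O).2.2.1 z c
    rw [h, map_zero] at h7
    exact hz ((map_eq_zero _).mp h7.symm)
  -- reality of the values
  have hreal : ∀ (i : Fin n) (z : Circle) (u : AddChar (Ker (f i)) Circle), evR z c ≠ 0 →
      (ev z u (q i) / evR z c).im = 0 := by
    intro i z u hz
    have h5 := congrArg (ev z u) (hrec i)
    rw [mul_comm, tpm_ev_cst_mul, (er O).2.2.1, mul_comm (sharp (q i)), tpm_ev_cst_mul,
      (hSh O _ (q i)).1] at h5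
    rw [← Complex.conj_eq_iff_im, map_div₀]
    have hz' : (starRingEnd ℂ) (evR z c) ≠ 0 := by
      intro h; exact hz ((map_eq_zero _).mp h)
    rw [div_eq_div_iff hz' hz]
    rw [mul_comm, ← h5, mul_comm]
  -- the bound for the coefficients
  have hbd : ∀ (i : Fin n) (z : Circle), evR z c ≠ 0 → ∀ a : Ker (f i),
      ‖evR z ((q i).coeff a) / evR z c‖ ≤ (evR z ((q i).coeff 0) / evR z c).re := by
    intro i z hz a
    have h5 := nn (Ker (f i)) (AddMonoidAlgebra.single 0 (evR z c)⁻¹ * spec z (q i)) ?_ a
    · have h6 : ∀ a : Ker (f i), (AddMonoidAlgebra.single 0 (evR z c)⁻¹ * spec z (q i)).coeff a =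
          evR z ((q i).coeff a) / evR z c := by
        intro a
        rw [AddMonoidAlgebra.coeff_single_zero_mul, spec_coeff, div_eq_inv_mul]
      rwa [h6, h6] at h5
    · intro u
      have h6 : evC u (AddMonoidAlgebra.single 0 (evR z c)⁻¹ * spec z (q i)) =
          ev z u (q i) / evR z c := by
        rw [map_mul]
        have h7 : evC u (AddMonoidAlgebra.single (0 : Ker (f i)) (evR z c)⁻¹) = (evR z c)⁻¹ := by
          rw [evC_apply, AddMonoidAlgebra.coeff_single, Finsupp.sum_single_index]
          · rw [AddChar.map_zero_eq_one]; simp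
          · rw [zero_mul]
        rw [h7, div_eq_inv_mul]
        rfl
      rw [h6]
      exact ⟨hreal i z u hz, hpos i z u hz⟩
  -- divisibility
  have hdvd : ∀ (i : Fin n) (a : Ker (f i)), c ∣ (q i).coeff a := by
    intro i a
    refine hD O c ((q i).coeff a) hc ?_
    have hg : IntervalIntegrable (fun t : ℝ =>
        2 * ‖(evL (circleMap 0 1 t) (B.coeff 0) / evL (circleMap 0 1 t) c).re‖ + r) volume 0
          (2 * Real.pi) := by
      refine IntervalIntegrable.add (IntervalIntegrable.const_mul ?_ 2) intervalIntegrable_const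
      exact hint.norm
    refine IntervalIntegrable.mono_fun hg ?_ ?_
    · exact ((tpm_cont_evL er ((q i).coeff a)).measurable.div
        (tpm_cont_evL er c).measurable).aestronglyMeasurable
    · refine Filter.Eventually.of_forall fun t => ?_
      have h5 : ∀ p : RO O, evL (circleMap 0 1 t) p = evR (Circle.exp t) p := by
        intro p
        rw [← (er O).1, Circle.coe_exp, circleMap_zero, Complex.ofReal_one, one_mul]
      simp only [h5]
      have hnn : (0 : ℝ) ≤ 2 * ‖(evR (Circle.exp t) (B.coeff 0) / evR (Circle.exp t) c).re‖ + r := by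
        positivity
      rw [Real.norm_of_nonneg hnn]
      by_cases hz : evR (Circle.exp t) c = 0
      · rw [hz, div_zero, norm_zero]
        rw [hz] at hnn
        exact hnn
      · have h6 := hbd i (Circle.exp t) hz a
        have h7 := hsum (Circle.exp t) hz
        have h8 : (evR (Circle.exp t) ((q i).coeff 0) / evR (Circle.exp t) c).re ≤
            ∑ i, (evR (Circle.exp t) ((q i).coeff 0) / evR (Circle.exp t) c).re := by
          refine Finset.single_le_sum
            (f := fun i => (evR (Circle.exp t) ((q i).coeff 0) / evR (Circle.exp t) c).re)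
            (fun j _ => ?_) (Finset.mem_univ i)
          exact (norm_nonneg _).trans (hbd j (Circle.exp t) hz 0)
        have h9 := Real.le_norm_self
          ((evR (Circle.exp t) (B.coeff 0) / evR (Circle.exp t) c).re)
        have h10 : (0 : ℝ) ≤ r := Nat.cast_nonneg r
        linarith
  have hdv2 : ∀ i, ∃ T : AO O (Ker (f i)), q i = cst c * T := fun i =>
    (H14.cst_dvd_iff c (q i)).mpr (hdvd i)
  choose T hTq using hdv2
  have hcoef : ∀ (i : Fin n) (a : Ker (f i)), (q i).coeff a = c * (T i).coeff a := by
    intro i a
    rw [hTq i, H14.coeff_cst_mul]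
  refine ⟨T, ?_, ?_, ?_, ?_⟩
  · intro i h
    apply hq0 i
    rw [hTq i, h, mul_zero]
  · intro i
    constructor
    · have h5 := hrec i
      have h6 : sharp (cst c : AO O (Ker (f i))) = cst (rsh c) := by
        ext1
        refine Finsupp.ext fun a => ?_
        rw [sharp_coeff', cst, cst, AddMonoidAlgebra.coeff_single, AddMonoidAlgebra.coeff_single,
          Finsupp.single_apply, Finsupp.single_apply]
        by_cases ha : a = 0
        · simp [ha]
        · rw [if_neg (by simpa [eq_comm] using ha), if_neg (fun h => ha h.symm), map_zero]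
      rw [hTq i, map_mul, h6] at h5
      have hc1 : (cst c : AO O (Ker (f i))) ≠ 0 := by
        intro h
        have := congrArg (fun G : AO O (Ker (f i)) => G.coeff 0) h
        simp only [cst, AddMonoidAlgebra.coeff_single, Finsupp.single_eq_same,
          AddMonoidAlgebra.coeff_zero, Finsupp.coe_zero, Pi.zero_apply] at this
        exact hc0 this
      have hc2 : (cst (rsh c) : AO O (Ker (f i))) ≠ 0 := by
        intro h
        have := congrArg (fun G : AO O (Ker (f i)) => G.coeff 0) h
        simp only [cst, AddMonoidAlgebra.coeff_single, Finsupp.single_eq_same,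
          AddMonoidAlgebra.coeff_zero, Finsupp.coe_zero, Pi.zero_apply] at this
        exact hrc0 this
      have h7 : (cst c * cst (rsh c)) * sharp (T i) = (cst c * cst (rsh c)) * T i := by
        calc (cst c * cst (rsh c)) * sharp (T i) = cst (rsh c) * sharp (T i) * cst c := by ring
          _ = cst c * T i * cst (rsh c) := h5.symm
          _ = _ := by ring
      exact mul_left_cancel₀ (mul_ne_zero hc1 hc2) h7
    · intro z u
      refine tpm_dense zf c hc0 (fun z => 0 ≤ (ev z u (T i)).re) ?_ ?_ z
      · exact isClosed_le continuous_const (Complex.continuous_re.comp (tpm_cont_ev er u (T i)))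
      · intro z hz
        have h5 := hpos i z u hz
        rw [hTq i, tpm_ev_cst_mul, mul_div_cancel_left₀ _ hz] at h5
        exact h5
  · intro z hz
    rw [← hsum z hz, map_sum, Complex.re_sum]
    congr 1
    refine Finset.sum_congr rfl fun i _ => ?_
    rw [hcoef i 0, map_mul, mul_div_cancel_left₀ _ hz]
  · refine hrk.trans (le_of_eq ?_)
    refine Finset.sum_congr rfl fun i _ => ?_
    have h5 : supp (q i) = supp (T i) := by
      ext a
      change (q i).coeff a ≠ 0 ↔ (T i).coeff a ≠ 0
      rw [hcoef i a]
      exact ⟨fun h h' => h (by rw [h', mul_zero]), fun h => mul_ne_zero hc0 h⟩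
    rw [h5]

end Pool.Agent.B5.H09
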