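import Pool.Agent.Lib.MP_b5021c_nt.IfaceE2
import Pool.Agent.Lib.MP_b5021c_nt.B.H70.Mm

/-!
# Board b5, stage 3, row E2_PSZ: the Poisson inequality over `ℤ`, parity
-/

namespace Pool.Agent.B5.H09

open scoped LaurentPolynomial
open Polynomial Pool.Agent.B5

/-- Uniqueness of the normal form. -/
theorem nf_zero {B : Type} [CommRing B] (n : ℤ) (p q : B[X]) (hp : p.coeff 0 ≠ 0)
    (hq : q.coeff 0 ≠ 0)
    (h : (LaurentPolynomial.T n : B[T;T⁻¹]) * toLaurent p = toLaurent q) : n = 0 := by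
  by_contra hn
  rcases lt_or_gt_of_ne hn with h1 | h1
  · obtain ⟨k, hk⟩ : ∃ k : ℕ, -n = k := ⟨(-n).toNat, by omega⟩
    have hk0 : k ≠ 0 := by omega
    have h2 : toLaurent p = toLaurent (X ^ k * q) := by
      rw [map_mul, toLaurent_X_pow, ← h, ← mul_assoc, ← LaurentPolynomial.T_add, ← hk,
        neg_add_cancel, LaurentPolynomial.T_zero, one_mul]
    have h3 := toLaurent_injective h2
    apply hp
    rw [h3, mul_coeff_zero, coeff_X_pow, if_neg (Ne.symm hk0), zero_mul]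
  · obtain ⟨k, hk⟩ : ∃ k : ℕ, n = k := ⟨n.toNat, by omega⟩
    have hk0 : k ≠ 0 := by omega
    have h2 : toLaurent (X ^ k * p) = toLaurent q := by
      rw [map_mul, toLaurent_X_pow, ← h, hk]
    have h3 := toLaurent_injective h2
    apply hq
    rw [← h3, mul_coeff_zero, coeff_X_pow, if_neg (Ne.symm hk0), zero_mul]

/-- Uniqueness of the normal form. -/
theorem nf_unique {B : Type} [CommRing B] (n m : ℤ) (p q : B[X]) (hp : p.coeff 0 ≠ 0)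
    (hq : q.coeff 0 ≠ 0)
    (h : (LaurentPolynomial.T n : B[T;T⁻¹]) * toLaurent p = LaurentPolynomial.T m * toLaurent q) :
    n = m ∧ p = q := by
  have h1 : (LaurentPolynomial.T (n - m) : B[T;T⁻¹]) * toLaurent p = toLaurent q := by
    rw [sub_eq_add_neg, add_comm, LaurentPolynomial.T_add, mul_assoc, h, ← mul_assoc,
      ← LaurentPolynomial.T_add, neg_add_cancel, LaurentPolynomial.T_zero, one_mul]
  have h2 := nf_zero _ p q hp hq h1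
  rw [h2, LaurentPolynomial.T_zero, one_mul] at h1
  exact ⟨by omega, toLaurent_injective h1⟩

/-- The elementary identity for the positivity. -/
theorem re_id (A B : ℂ) (h : ‖B - A‖ ≤ ‖A‖) : 0 ≤ ((2 * A - B) * (starRingEnd ℂ) B).re := by
  have h1 : ‖B - A‖ ^ 2 ≤ ‖A‖ ^ 2 := by
    have := norm_nonneg (B - A)
    nlinarith [norm_nonneg A]
  rw [Complex.sq_norm, Complex.sq_norm, Complex.normSq_apply, Complex.normSq_apply,
    Complex.sub_re, Complex.sub_im] at h1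
  simp only [Complex.mul_re, Complex.sub_re, Complex.sub_im, Complex.mul_im, Complex.conj_re,
    Complex.conj_im, Complex.re_ofNat, Complex.im_ofNat]
  nlinarith

/-- The hypothesis `PHyp` for a load of type A. -/
theorem phyp_of {O : Type} [CommRing O] [Coef O] (Q V : RO O) (n : ℤ) (q e : O[X])
    (hQn : Q = LaurentPolynomial.T n * toLaurent q)
    (hVn : V = LaurentPolynomial.T (n + 1) * toLaurent e)
    (hez : ∀ z : ℂ, ‖z‖ < 1 → (e.map (Coef.emb : O →+* ℂ)).eval z ≠ 0) (w : ℂ) (hw0 : w ≠ 0)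
    (hw1 : ‖w‖ < 1) (hroots : (q.map (Coef.emb : O →+* ℂ)).roots.filter (fun x => ‖x‖ < 1) = {w})
    (hQ : ∀ z : Circle, evR z Q ≠ 0) (hVQ : ∀ z : Circle, ‖evR z (V - Q)‖ ≤ ‖evR z Q‖) :
    PHyp (2 * q.map (Coef.emb : O →+* ℂ) - X * e.map (Coef.emb : O →+* ℂ))
      (e.map (Coef.emb : O →+* ℂ)) w 1 := by
  have hsum : 2 * q.map (Coef.emb : O →+* ℂ) - X * e.map (Coef.emb : O →+* ℂ) +
      C ((1 : ℝ) : ℂ) * X * e.map (Coef.emb : O →+* ℂ) = C (2 : ℂ) * q.map (Coef.emb : O →+* ℂ) := by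
    have h2 : (C (2 : ℂ) : ℂ[X]) = 2 := rfl
    rw [h2, Complex.ofReal_one, C_1]; ring
  refine ⟨one_pos, hw0, hw1, hez, ?_, ?_, ?_⟩
  · intro z hz
    obtain ⟨zc, rfl⟩ : ∃ zc : Circle, (zc : ℂ) = z := ⟨⟨z, mem_sphere_zero_iff_norm.mpr hz⟩, rfl⟩
    have h1 := hVQ zc
    have hz0 : (zc : ℂ) ≠ 0 := Circle.coe_ne_zero zc
    rw [map_sub, hVn, hQn, H70.evR_T_mul, H70.evR_T_mul] at h1
    rw [zpow_add₀ hz0, zpow_one, mul_assoc, ← mul_sub, norm_mul, norm_mul, norm_zpow, hz,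
      one_zpow, one_mul, one_mul] at h1
    have h3 := re_id _ _ h1
    rw [eval_sub, eval_mul, eval_mul, eval_X]
    simpa using h3
  · intro z hz
    obtain ⟨zc, rfl⟩ : ∃ zc : Circle, (zc : ℂ) = z := ⟨⟨z, mem_sphere_zero_iff_norm.mpr hz⟩, rfl⟩
    rw [hsum, eval_mul, eval_C]
    have h1 := hQ zc
    rw [hQn, H70.evR_T_mul] at h1
    exact mul_ne_zero two_ne_zero (right_ne_zero_of_mul h1)
  · rw [hsum, roots_C_mul _ two_ne_zero, hroots]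

/-- Row E2_PSZ. -/
theorem e2_psz (hPso : PsoS) (hPmf : PmfS) : PszS := by
  intro θ Q V r hP hQ hA hVQ hr hrV
  obtain ⟨n, q, e, hQn, hVn, hq0, he0, hez⟩ := hA
  obtain ⟨hθ, n', q', hQ', hq0', w, hw, hroots⟩ := hP
  have hθ0 : (0 : ℝ) < θ := by linarith
  have hne : ∀ x : ℤ, ‖(Coef.emb x : ℂ)‖ = 1 → x ≠ 0 := by
    intro x hx h
    rw [h, map_zero, norm_zero] at hx
    exact zero_ne_one hx
  obtain ⟨-, hqq⟩ := nf_unique n n' q q' (hne _ hq0) (hne _ hq0') (by rw [← hQn, hQ'])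
  subst hqq
  have hw0 : w ≠ 0 := by
    intro h
    rw [h, norm_zero] at hw
    exact (inv_pos.mpr hθ0).ne hw
  have hw1 : ‖w‖ < 1 := by
    rw [hw]; exact inv_lt_one_of_one_lt₀ hθ
  have hph := phyp_of Q V n q e hQn hVn hez w hw0 hw1 hroots hQ hVQ
  obtain ⟨r', hr0, hre, hpmn, -⟩ := hPmf ℤ r w hw1 hr
  have hcond : ∀ z : ℂ, ‖z‖ = 1 → (e.map (Coef.emb : ℤ →+* ℂ)).eval z ≠ 0 →
      ((2 * q.map (Coef.emb : ℤ →+* ℂ) - X * e.map (Coef.emb : ℤ →+* ℂ)).eval z /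
        (z * (e.map (Coef.emb : ℤ →+* ℂ)).eval z)).re = (r'.eval z).re := by
    intro z hz hez'
    obtain ⟨zc, rfl⟩ : ∃ zc : Circle, (zc : ℂ) = z := ⟨⟨z, mem_sphere_zero_iff_norm.mpr hz⟩, rfl⟩
    obtain ⟨z, hzz⟩ : ∃ z : ℂ, z = (zc : ℂ) := ⟨_, rfl⟩
    have hz0 : z ≠ 0 := by rw [hzz]; exact Circle.coe_ne_zero zc
    rw [← hzz] at hez' ⊢
    have hV : evR zc V = z ^ n * (z * (e.map (Coef.emb : ℤ →+* ℂ)).eval z) := by
      rw [hVn, H70.evR_T_mul, ← hzz, zpow_add₀ hz0, zpow_one, mul_assoc]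
    have hQz : evR zc Q = z ^ n * (q.map (Coef.emb : ℤ →+* ℂ)).eval z := by
      rw [hQn, H70.evR_T_mul, ← hzz]
    have hzn : z ^ n ≠ 0 := zpow_ne_zero n hz0
    have hze : z * (e.map (Coef.emb : ℤ →+* ℂ)).eval z ≠ 0 := mul_ne_zero hz0 hez'
    have h3 := hrV zc (by rw [hV]; exact mul_ne_zero hzn hze)
    rw [hre, ← hzz, hV, hQz, mul_div_mul_left _ _ hzn] at h3
    rw [h3, eval_sub, eval_mul, eval_mul, eval_X]
    have h4 : (eval z (2 : ℂ[X]) * (q.map (Coef.emb : ℤ →+* ℂ)).eval z -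
        z * (e.map (Coef.emb : ℤ →+* ℂ)).eval z) / (z * (e.map (Coef.emb : ℤ →+* ℂ)).eval z) =
        2 * ((q.map (Coef.emb : ℤ →+* ℂ)).eval z / (z * (e.map (Coef.emb : ℤ →+* ℂ)).eval z)) -
          1 := by
      have : eval z (2 : ℂ[X]) = 2 := by simp
      rw [this, sub_div, div_self hze]; ring
    rw [h4]
    simp [Complex.sub_re, Complex.mul_re]
  obtain ⟨hA1, hA2⟩ := hPso _ _ r' w 1 hph hcond
  -- coefficients
  have he2 : e.coeff 0 * e.coeff 0 = 1 := by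
    have h1 : ‖((e.coeff 0 : ℤ) : ℂ)‖ = 1 := he0
    rw [Complex.norm_intCast] at h1
    have h2 : |e.coeff 0| = 1 := by exact_mod_cast h1
    rcases abs_eq (zero_le_one) |>.mp h2 with h | h <;> rw [h] <;> norm_num
  have hc0 : (2 * q.map (Coef.emb : ℤ →+* ℂ) - X * e.map (Coef.emb : ℤ →+* ℂ)).coeff 0 =
      2 * ((q.coeff 0 : ℤ) : ℂ) := by
    rw [coeff_sub, mul_coeff_zero, mul_coeff_zero, coeff_map, coeff_X_zero, zero_mul, sub_zero]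
    have : (2 : ℂ[X]).coeff 0 = 2 := by simp
    rw [this]; rfl
  have hc1 : (2 * q.map (Coef.emb : ℤ →+* ℂ) - X * e.map (Coef.emb : ℤ →+* ℂ)).coeff 1 =
      2 * ((q.coeff 1 : ℤ) : ℂ) - ((e.coeff 0 : ℤ) : ℂ) := by
    have h2 : (2 : ℂ[X]) = C 2 := rfl
    have h3 : (X * e.map (Coef.emb : ℤ →+* ℂ)).coeff 1 = (e.map (Coef.emb : ℤ →+* ℂ)).coeff 0 :=
      coeff_X_mul _ 0
    rw [coeff_sub, h2, coeff_C_mul, coeff_map, h3, coeff_map]
    rfl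
  have hd0 : (e.map (Coef.emb : ℤ →+* ℂ)).coeff 0 = ((e.coeff 0 : ℤ) : ℂ) := by
    rw [coeff_map]; rfl
  have hd1 : (e.map (Coef.emb : ℤ →+* ℂ)).coeff 1 = ((e.coeff 1 : ℤ) : ℂ) := by
    rw [coeff_map]; rfl
  have he2c : ((e.coeff 0 : ℤ) : ℂ) ^ 2 = 1 := by
    rw [sq]; exact_mod_cast he2
  have ht0 : (((2 * q.map (Coef.emb : ℤ →+* ℂ) - X * e.map (Coef.emb : ℤ →+* ℂ)).coeff 1 *
      (e.map (Coef.emb : ℤ →+* ℂ)).coeff 0 -
      (2 * q.map (Coef.emb : ℤ →+* ℂ) - X * e.map (Coef.emb : ℤ →+* ℂ)).coeff 0 *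
        (e.map (Coef.emb : ℤ →+* ℂ)).coeff 1) / (e.map (Coef.emb : ℤ →+* ℂ)).coeff 0 ^ 2).re =
      ((2 * (q.coeff 1 * e.coeff 0 - q.coeff 0 * e.coeff 1) - 1 : ℤ) : ℝ) := by
    rw [hc0, hc1, hd0, hd1, he2c, div_one]
    have : (2 * ((q.coeff 1 : ℤ) : ℂ) - ((e.coeff 0 : ℤ) : ℂ)) * ((e.coeff 0 : ℤ) : ℂ) -
        2 * ((q.coeff 0 : ℤ) : ℂ) * ((e.coeff 1 : ℤ) : ℂ) =
        (((2 * (q.coeff 1 * e.coeff 0 - q.coeff 0 * e.coeff 1) - 1 : ℤ) : ℝ) : ℂ) := by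
      have h1 : (2 * ((q.coeff 1 : ℤ) : ℂ) - ((e.coeff 0 : ℤ) : ℂ)) * ((e.coeff 0 : ℤ) : ℂ) -
        2 * ((q.coeff 0 : ℤ) : ℂ) * ((e.coeff 1 : ℤ) : ℂ) =
        2 * (((q.coeff 1 : ℤ) : ℂ) * ((e.coeff 0 : ℤ) : ℂ) -
          ((q.coeff 0 : ℤ) : ℂ) * ((e.coeff 1 : ℤ) : ℂ)) - ((e.coeff 0 : ℤ) : ℂ) ^ 2 := by ring
      rw [h1, he2c]
      push_cast
      ring
    rw [this, Complex.ofReal_re]
  rw [ht0] at hA1 hA2
  have hr0' : (r'.eval 0).re = ((r.coeff 0 : ℤ) : ℝ) := by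
    rw [← coeff_zero_eq_eval_zero, hr0]
    change (((r.coeff 0 : ℤ) : ℂ)).re = _
    simp
  rw [hr0'] at hA1 hA2
  have hle : r.coeff 0 ≤ 2 * (q.coeff 1 * e.coeff 0 - q.coeff 0 * e.coeff 1) - 1 := by
    exact_mod_cast hA1
  obtain ⟨m, hm⟩ := Int.le.dest hle
  refine ⟨w, m, q.coeff 1 * e.coeff 0 - q.coeff 0 * e.coeff 1, hw, hm, ?_⟩
  have hm2 : ((2 * (q.coeff 1 * e.coeff 0 - q.coeff 0 * e.coeff 1) - 1 : ℤ) : ℝ) -
      ((r.coeff 0 : ℤ) : ℝ) = (m : ℝ) := by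
    rw [← hm]; push_cast; ring
  rw [hm2] at hA2
  rw [hpmn]
  refine hA2.trans ?_
  -- the right side
  have hval : ‖(2 * q.map (Coef.emb : ℤ →+* ℂ) - X * e.map (Coef.emb : ℤ →+* ℂ)).eval 0 /
      (e.map (Coef.emb : ℤ →+* ℂ)).eval 0 * (1 / w - (starRingEnd ℂ) w)‖ = 2 * (θ - θ⁻¹) := by
    rw [norm_mul, norm_div, ← coeff_zero_eq_eval_zero, ← coeff_zero_eq_eval_zero, hc0, hd0,
      norm_mul]
    have h1 : ‖((q.coeff 0 : ℤ) : ℂ)‖ = 1 := hq0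
    have h2 : ‖((e.coeff 0 : ℤ) : ℂ)‖ = 1 := he0
    rw [h1, h2, Complex.norm_ofNat, mul_one, div_one]
    have h3 : 1 / w - (starRingEnd ℂ) w = (1 / w) * ((1 - ‖w‖ ^ 2 : ℝ) : ℂ) := by
      push_cast
      rw [← Complex.mul_conj']
      field_simp
    rw [h3, norm_mul, norm_div, norm_one, hw, Complex.norm_real, Real.norm_eq_abs]
    have h4 : (0 : ℝ) ≤ 1 - θ⁻¹ ^ 2 := by
      have : θ⁻¹ < 1 := inv_lt_one_of_one_lt₀ hθ
      have h5 : 0 < θ⁻¹ := inv_pos.mpr hθ0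
      nlinarith
    rw [abs_of_nonneg h4]
    field_simp
  have h5 := Complex.abs_re_le_norm ((2 * q.map (Coef.emb : ℤ →+* ℂ) -
    X * e.map (Coef.emb : ℤ →+* ℂ)).eval 0 / (e.map (Coef.emb : ℤ →+* ℂ)).eval 0 *
      (1 / w - (starRingEnd ℂ) w))
  rw [hval] at h5
  have := neg_abs_le (((2 * q.map (Coef.emb : ℤ →+* ℂ) -
    X * e.map (Coef.emb : ℤ →+* ℂ)).eval 0 / (e.map (Coef.emb : ℤ →+* ℂ)).eval 0 *
      (1 / w - (starRingEnd ℂ) w)).re)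
  linarith

end Pool.Agent.B5.H09
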